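import Mathlib
import Pool.Agent.R437.Met.AF2
import Pool.Agent.R437.Met.AF3
import Pool.Agent.R437.Met.AFc
import Pool.Agent.Results.MP_6babc4_nt.AllFieldsFrey

/-!
# Frey's inequality for the approximations of almost every number, in all fields

`Near n θ τ c ξ` is the set of all `(L, j, σ)`, where `L` is any number field of degree `n` (in the
algebraic closure of `ℚ`), `j` an element of `L` and `σ` an embedding of `L` into `Λ`, such that the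
distance of `ξ` and `σ(j)` is at most `c H(j) ^ (-τ)` and the root discriminant of `L` is at most
`H(j) ^ θ`, where `H(j)` is the absolute height.

Outside a set of `ξ` of small Hausdorff dimension, Frey's inequality, in a sharp form and with the
slope `κ = 5 / (12 [K : ℚ])` and an absolute constant, holds for the Weil restrictions to all subfields
`K` of `L` of all elliptic curves over `L` of invariant `j`, for all but finitely many of these `j`,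
in all fields `L` of degree `n` at once.
-/

set_option autoImplicit false

namespace Pool.Agent.Results.MP_6babc4_nt.ApproximationsAllFields

open NumberField Height MeasureTheory Filter IsDedekindDomain
open Pool.Agent.Results.MP_6babc4_nt.AllFieldsFrey (FreySharp Frey Inv ExcSharp frey_of_sharp)
open scoped ENNReal NNReal

section Aux

open Pool.Agent.R437.Met.AF

/-- the elements of `K` for which the sharp form fails -/
def Bad (δ C : ℝ) (K : NF) : Set K.1 := {j | ¬ FreySharp δ C j}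

theorem mono {L : Type} [Field L] [NumberField L] {δ δ' C : ℝ} (h : δ' ≤ δ) {j : L}
    (hj : FreySharp δ' C j) : FreySharp δ C j := by
  intro K _ _ _ E τ hE hab hτ
  have h1 := hj K E τ hE hab hτ
  have h2 : 0 ≤ Real.log (AllFieldsFrey.multNorm E) := Pool.Agent.Y733.FF.log_multN_nonneg E hE
  have h3 : (1 + δ') * Real.log (AllFieldsFrey.multNorm E) ≤
      (1 + δ) * Real.log (AllFieldsFrey.multNorm E) :=
    mul_le_mul_of_nonneg_right (by linarith) h2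
  linarith

/-- the constant of the starting count -/
def Cst (C : ℝ) : Prop :=
  ∀ δ ε : ℝ, 0 ≤ δ → δ ≤ 3 → 0 < ε → ∃ M : ℝ, 0 < M ∧
    ∀ (L : Type) [Field L] [NumberField L] (B : ℝ), 1 ≤ B → (Inv L B).Finite ∧
      ((ExcSharp L δ C B).ncard : ℝ) ≤ (M * B ^ (2 - δ / (2 * (1 + δ)) + ε)) ^ Module.finrank ℚ L

theorem bad_count {C : ℝ} (hC : Cst C) {n : ℕ} (hn : 1 ≤ n) {δ : ℝ} (h0 : 0 ≤ δ)
    (h1 : δ ≤ 3) (ε : ℝ) (hε : 0 < ε) :
    ∃ M : ℝ, ∀ K : NF, Module.finrank ℚ K.1 = n → ∀ B : ℝ, 1 ≤ B →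
      {j : K.1 | j ∈ Bad δ C K ∧ logHeight₁ j ≤ n * Real.log B}.Finite ∧
      (({j : K.1 | j ∈ Bad δ C K ∧ logHeight₁ j ≤ n * Real.log B}.ncard : ℕ) : ℝ) ≤
        M * B ^ (n * (2 - δ / (2 * (1 + δ))) + ε) := by
  have hn0 : (0 : ℝ) < n := by exact_mod_cast hn
  obtain ⟨M, hM, h⟩ := hC δ (ε / n) h0 h1 (by positivity)
  refine ⟨M ^ n, fun K hK B hB => ?_⟩
  have hB0 : 0 < B := by linarith
  obtain ⟨h2, h3⟩ := h K.1 B hB
  have hset : {j : K.1 | j ∈ Bad δ C K ∧ logHeight₁ j ≤ n * Real.log B} =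
      ExcSharp K.1 δ C B := by
    ext j
    simp only [Set.mem_ofPred_eq, Bad, ExcSharp, AllFieldsFrey.Inv, hK]
    tauto
  rw [hset]
  refine ⟨h2.subset fun j hj => hj.1, h3.trans (le_of_eq ?_)⟩
  rw [hK, mul_pow, ← Real.rpow_natCast (B ^ _), ← Real.rpow_mul hB0.le]
  congr 2
  field_simp

theorem main :
    (∃ (C : ℝ) (e : ℕ → ℝ), 0 < C ∧
      (∀ c : ℝ, 1 / (8 * (Real.log 2) ^ 2) < c →
        ∀ᶠ n : ℕ in atTop, e n ≤ c * (Real.log n) ^ 2) ∧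
      (∀ n, 0 ≤ e n) ∧
      (∀ n : ℕ, 2 ≤ n →
        e n ≤ (((n + 2) * (n - 1) : ℕ) : ℝ) / (4 * ((n - n / n.minFac : ℕ) : ℝ))) ∧
      e 1 = 0 ∧
      (∀ (Λ : Type) [Field Λ] [CharZero Λ] [MetricSpace Λ] (n : ℕ) (δ θ τ : ℝ), 1 ≤ n → 0 < δ →
        δ ≤ 3 → 0 ≤ θ → 0 < τ →
          dimH {ξ : Λ | ∃ c : ℝ, {p | p ∈ Near n θ τ c ξ ∧ ¬ FreySharp δ C p.2.1}.Infinite} ≤
              ENNReal.ofReal (n * (2 - δ / (2 * (1 + δ)) + θ * e n) / τ)) ∧
      (∀ᵐ ξ : ℝ, ∀ (n : ℕ) (δ θ τ c : ℝ), 1 ≤ n → 0 < δ → δ ≤ 3 → 0 ≤ θ →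
        n * (2 - δ / (2 * (1 + δ)) + θ * e n) < τ →
          {p | p ∈ Near n θ τ c ξ ∧ ¬ FreySharp δ C p.2.1}.Finite) ∧
      (∀ᵐ ξ : ℝ, ∀ (n : ℕ) (θ τ c : ℝ), 1 ≤ n → 0 ≤ θ → n * (13 / 8 + θ * e n) < τ →
        {p | p ∈ Near n θ τ c ξ ∧ ¬ Frey (C / 12) p.2.1}.Finite)) ∧
    (∀ (K : NF) (σ : K.1 →+* ℝ) (θ τ : ℝ), 0 < θ → τ < 2 * (Module.finrank ℚ K.1 : ℝ) →
      ∀ ξ : ℝ, ξ ∉ Set.range σ →
        {j : K.1 | (⟨K, j, σ⟩ : Pt ℝ) ∈ Near (Module.finrank ℚ K.1) θ τ 1 ξ}.Infinite) := by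
  obtain ⟨e, h1, h2, h3, h4, h5⟩ := field_count
  obtain ⟨⟨C, hC, hcount⟩, -⟩ := AllFieldsFrey.result
  have hcst : Cst C := by
    intro δ ε h0 h1 hε
    obtain ⟨M, hM, h⟩ := hcount δ ε h0 h1 hε
    exact ⟨M, hM, fun K _ _ B hB => ⟨(h K B hB).1, (h K B hB).2.1⟩⟩
  have hdim : ∀ (Λ : Type) [Field Λ] [CharZero Λ] [MetricSpace Λ] (n : ℕ) (δ θ τ : ℝ), 1 ≤ n →
      0 < δ → δ ≤ 3 → 0 ≤ θ → 0 < τ →
        dimH {ξ : Λ | ∃ c : ℝ, {p | p ∈ Near n θ τ c ξ ∧ ¬ FreySharp δ C p.2.1}.Infinite} ≤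
              ENNReal.ofReal (n * (2 - δ / (2 * (1 + δ)) + θ * e n) / τ) := by
    intro Λ _ _ _ n δ θ τ hn hδ0 hδ1 hθ hτ
    have h6 : δ / (2 * (1 + δ)) ≤ 1 / 2 := AllFieldsFrey.theta_le hδ0.le
    refine (dim (Λ := Λ) (Bad δ C) hn (a := n * (2 - δ / (2 * (1 + δ)))) (s := e n)
      (mul_nonneg (Nat.cast_nonneg _) (by linarith)) (h2 n) hθ hτ (h5 n hn)
      (fun ε hε => bad_count hcst hn hδ0.le hδ1 ε hε)).trans (le_of_eq ?_)
    congr 2
    ring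
  have hae : ∀ᵐ ξ : ℝ, ∀ (n : ℕ) (δ θ τ c : ℝ), 1 ≤ n → 0 < δ → δ ≤ 3 → 0 ≤ θ →
        n * (2 - δ / (2 * (1 + δ)) + θ * e n) < τ →
          {p | p ∈ Near n θ τ c ξ ∧ ¬ FreySharp δ C p.2.1}.Finite := by
    rw [ae_all_iff]
    intro n
    have key := ae_params (volume : Measure ℝ) (fun δ θ τ ξ => ∀ c : ℝ,
        {p | p ∈ Near n θ τ c ξ ∧ ¬ FreySharp δ C p.2.1}.Finite)
      (by
        intro δ δ' θ θ' τ τ' ξ hδ hθ hτ h c
        refine (h |c|).subset ?_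
        rintro p ⟨hp1, hp4⟩
        exact ⟨near_mono hθ hτ (le_abs_self c) (abs_nonneg c) ξ hp1, fun h6 => hp4 (mono hδ h6)⟩)
      (fun δ θ τ => 1 ≤ n ∧ 0 < δ ∧ δ ≤ 3 ∧ 0 ≤ θ ∧ n * (2 - δ / (2 * (1 + δ)) + θ * e n) < τ)
      (by
        rintro δ θ τ ⟨hn, hδ0, hδ1, hθ, hg⟩
        obtain ⟨δ', θ', τ', a1, a2, a3, a4, a5⟩ := open_rat (fun x => 2 - x / (2 * (1 + x))) (n := n)
          (e := e n) (lo := 0) (η := δ) (θ := θ) (τ := τ) (Nat.cast_nonneg _) (h2 n) hδ0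
          (by
            have h6 : 2 * (1 + δ) ≠ 0 := by positivity
            exact continuousAt_const.sub (continuousAt_id.div (by fun_prop) h6)) hg
        exact ⟨δ', θ', τ', a2, a3, a4, hn, a1, by linarith, by linarith, a5⟩)
      (by
        rintro δ θ τ ⟨hn, hδ0, hδ1, hθ, hg⟩
        have hn0 : (1 : ℝ) ≤ n := by exact_mod_cast hn
        have h6 : δ / (2 * (1 + δ)) ≤ 1 / 2 := AllFieldsFrey.theta_le hδ0.le
        have hpos : 0 < (n : ℝ) * (2 - δ / (2 * (1 + δ)) + θ * e n) := by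
          have := mul_nonneg hθ (h2 n)
          exact mul_pos (by linarith) (by linarith)
        have hτ : 0 < τ := by linarith
        have h7 : volume {ξ : ℝ | ∃ c : ℝ, {p | p ∈ Near n θ τ c ξ ∧
            ¬ FreySharp δ C p.2.1}.Infinite} = 0 := by
          refine null_real (lt_of_le_of_lt (hdim ℝ n δ θ τ hn hδ0 hδ1 hθ hτ) ?_)
          rw [← ENNReal.ofReal_one, ENNReal.ofReal_lt_ofReal_iff one_pos, div_lt_one hτ]
          exact hg
        rw [ae_iff]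
        refine measure_mono_null ?_ h7
        intro ξ hξ
        simp only [Set.mem_ofPred_eq, not_forall] at hξ ⊢
        exact hξ)
    filter_upwards [key] with ξ hξ
    intro δ θ τ c hn hδ0 hδ1 hθ hg
    exact hξ δ θ τ ⟨hn, hδ0, hδ1, hθ, hg⟩ c
  refine ⟨⟨C, e, hC, h1, h2, h3, h4, hdim, hae, ?_⟩, ?_⟩
  · filter_upwards [hae] with ξ hξ
    intro n θ τ c hn hθ hg
    refine (hξ n 3 θ τ c hn (by norm_num) le_rfl hθ ?_).subset ?_
    · have e2 : (2 : ℝ) - 3 / (2 * (1 + 3)) = 13 / 8 := by norm_num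
      rw [e2]
      exact hg
    · rintro p ⟨hp1, hp2⟩
      exact ⟨hp1, fun h6 => hp2 (frey_of_sharp le_rfl h6)⟩
  · intro K σ θ τ hθ hτ ξ hξ
    have h6 := infinite_near K σ hθ hτ hξ (E := ∅) Set.finite_empty
    refine h6.mono ?_
    rintro j ⟨-, hj2⟩
    exact hj2

end Aux

open Pool.Agent.R437.Met.AFc

/-- the points in `Near n θ τ c ξ` where Frey's inequality in the form `FreySharp δ C` fails -/
def FailSharp {Λ : Type} [Field Λ] [MetricSpace Λ] (C : ℝ) (n : ℕ) (δ θ τ c : ℝ) (ξ : Λ) :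
    Set (Pt Λ) :=
  {p | p ∈ Near n θ τ c ξ ∧ ¬ FreySharp δ C p.x}

/-- the points in `Near n θ τ c ξ` where `Frey C` fails -/
def Fail (C : ℝ) (n : ℕ) (θ τ c : ℝ) (ξ : ℝ) : Set (Pt ℝ) :=
  {p | p ∈ Near n θ τ c ξ ∧ ¬ Frey C p.x}

/-- **Theorem.** There are an absolute constant `C > 0` and `e : ℕ → ℝ` with `e 1 = 0`,
`0 ≤ e n ≤ (n + 2) (n - 1) / (4 (n - n / p))`, `p` the least prime factor of `n ≥ 2`, and
`e n = O(log ^ 2 n)`, such that the following holds for `0 < δ ≤ 3`, `θ ≥ 0`.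
(1) For every field `Λ` of characteristic zero with a metric (`ℝ`, `ℂ`, `ℚ_p`), all `n ≥ 1`, `τ > 0`
and all `ξ` in `Λ` outside a set of Hausdorff dimension at most
`n (2 - δ / (2 (1 + δ)) + θ e(n)) / τ`: for every `c`, for all but finitely many `(L, j, σ)` in
`Near n θ τ c ξ` the sharp form of Frey's inequality with parameters `δ` and `C` holds for the Weil
restrictions to all subfields of `L` of all elliptic curves over `L` of invariant `j`.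
(2) For almost every real `ξ` this is true for all `n ≥ 1`, `δ`, `θ`, `τ`, `c` with
`n (2 - δ / (2 (1 + δ)) + θ e(n)) < τ`.
(3) For almost every real `ξ` and all `n ≥ 1`, `θ ≥ 0`, `τ`, `c` with `n (13 / 8 + θ e(n)) < τ`,
Frey's inequality `h_F(A) ≤ (5 / (12 [K : ℚ])) log N_A + (C / 12) dim A` holds for the Weil
restrictions `A` to all subfields `K` of `L` of all elliptic curves over `L` of invariant `j`, for all
but finitely many `(L, j, σ)` in `Near n θ τ c ξ`.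
(4) For every number field `L` of degree `n`, every embedding `σ` of `L` into the real numbers, all
`θ > 0`, `τ < 2 n` and every real `ξ` not in `σ(L)` there are infinitely many `j` in `L` with
`(L, j, σ)` in `Near n θ τ 1 ξ`. -/
theorem result :
    (∃ (C : ℝ) (e : ℕ → ℝ), 0 < C ∧ Expo e ∧
      (∀ (Λ : Type) [Field Λ] [CharZero Λ] [MetricSpace Λ] (n : ℕ) (δ θ τ : ℝ), 1 ≤ n → 0 < δ →
        δ ≤ 3 → 0 ≤ θ → 0 < τ →
          dimH {ξ : Λ | ∃ c : ℝ, (FailSharp C n δ θ τ c ξ).Infinite} ≤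
              ENNReal.ofReal (n * (2 - δ / (2 * (1 + δ)) + θ * e n) / τ)) ∧
      (∀ᵐ ξ : ℝ, ∀ (n : ℕ) (δ θ τ c : ℝ), 1 ≤ n → 0 < δ → δ ≤ 3 → 0 ≤ θ →
        n * (2 - δ / (2 * (1 + δ)) + θ * e n) < τ → (FailSharp C n δ θ τ c ξ).Finite) ∧
      (∀ᵐ ξ : ℝ, ∀ (n : ℕ) (θ τ c : ℝ), 1 ≤ n → 0 ≤ θ → n * (13 / 8 + θ * e n) < τ →
        (Fail (C / 12) n θ τ c ξ).Finite)) ∧
    (∀ (K : NF) (σ : K.F →+* ℝ) (θ τ : ℝ), 0 < θ → τ < 2 * (K.deg : ℝ) →
      ∀ ξ : ℝ, ξ ∉ Set.range σ → (NearIn K σ θ τ ξ).Infinite) := by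
  obtain ⟨⟨C, e, h0, h1, h2, h3, h4, h5, h6, h8⟩, h7⟩ := main
  exact ⟨⟨C, e, h0, ⟨h1, h2, h3, h4⟩, h5, h6, h8⟩, h7⟩

end Pool.Agent.Results.MP_6babc4_nt.ApproximationsAllFields
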