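import Mathlib
import Pool.Agent.R465.FH.End

/-!
# The limit law of `h_F(E) - (1 / 6) log N_E` for the elliptic curves with full rational two-torsion

All elliptic curves `E` over `ℚ` with full rational 2-torsion, ordered by the conductor `N_E`, with
no bound on the heights. The starting library shows that `h_F(E) - (1 / 6) log N_E` is bounded in
probability, and finds the joint limit law of the quotient `|D| / N₆ ²` and of the modular invariant.
Here `h_F(E) - (1 / 6) log N_E` is shown to converge in distribution. It is the sum of an arithmetic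
part (the logarithm of the minimal discriminant over the square of the conductor) and of an
archimedean part, which are independent in the limit; the law of the second is explicit, and the
limit law is continuous.
-/

set_option autoImplicit false

namespace Pool.Agent.Results.MP_6babc4_nt.HeightLimitLaw

open Filter Topology

/-- the discriminant of `x³ - a x - b` -/
def Disc (a b : ℤ) : ℤ := 4 * a ^ 3 - 27 * b ^ 2

/-- `y² = x³ - a x - b` is an elliptic curve and `|Disc|` is least among the integral models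
`y² = x³ - a' x - b'`, `a' = u⁴ a`, `b' = u⁶ b`, `u ∈ ℚ^×`. Every elliptic curve over `ℚ` has exactly
one such model. -/
def IsMinimal (a b : ℤ) : Prop :=
  Disc a b ≠ 0 ∧ ∀ (u : ℚ) (a' b' : ℤ), u ≠ 0 → (a' : ℚ) = u ^ 4 * a → (b' : ℚ) = u ^ 6 * b →
    |Disc a b| ≤ |Disc a' b'|

/-- all 2-torsion points are rational: `x³ - a x - b` splits over `ℚ` -/
def FullTwoTorsion (a b : ℤ) : Prop :=
  ∃ r₁ r₂ r₃ : ℚ, ∀ x : ℚ, x ^ 3 - a * x - b = (x - r₁) * (x - r₂) * (x - r₃)

/-- the prime-to-6 part of the conductor of a minimal model: the product over the primes `p ≥ 5`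
dividing `Disc` of `p` (multiplicative reduction: `p ∤ a`) or `p²` (additive reduction: `p ∣ a`) -/
def Cond6 (a b : ℤ) : ℕ :=
  ∏ p ∈ (Disc a b).natAbs.primeFactors.filter (fun p => 5 ≤ p), if (p : ℤ) ∣ a then p ^ 2 else p

/-- the curve `y² = x³ - a x - b` over `ℚ`, `q = (a, b)` -/
def E (q : ℤ × ℤ) : WeierstrassCurve ℚ := ⟨0, 0, 0, -(q.1 : ℚ), -(q.2 : ℚ)⟩

/-- the absolute value of the minimal discriminant of an elliptic curve `W` over `ℚ`: the smallest
absolute value of the discriminant of a Weierstrass equation `V` with integer coefficients which is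
isomorphic to `W` over `ℚ` -/
noncomputable def minDisc (W : WeierstrassCurve ℚ) : ℕ :=
  sInf {n : ℕ | ∃ (V : WeierstrassCurve ℤ) (C : WeierstrassCurve.VariableChange ℚ),
    C • W = V.map (Int.castRingHom ℚ) ∧ n = V.Δ.natAbs}

/-- the modular invariant `j(τ) = E₄(τ) ^ 3 / Δ(τ) = 1 / q + 744 + ⋯` -/
noncomputable def jInv (τ : UpperHalfPlane) : ℂ :=
  ModularForm.E₄ τ ^ 3 / ModularForm.discriminant τ

/-- the archimedean term `- log (|Δ(τ)| (Im τ) ^ 6)` of the Faltings height -/
noncomputable def arch (τ : UpperHalfPlane) : ℝ :=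
  -Real.log (‖ModularForm.discriminant τ‖ * τ.im ^ 6)

/-- `τ = i y` with `y ≥ 1` and `E(ℂ)` is isomorphic to `ℂ / (ℤ + ℤ τ)`: `j(τ) = c₄³ / Δ` is the
invariant of `E` -/
def IsPeriod (q : ℤ × ℤ) (τ : UpperHalfPlane) : Prop :=
  τ.re = 0 ∧ 1 ≤ τ.im ∧ jInv τ = (((E q).c₄ ^ 3 / (E q).Δ : ℚ) : ℂ)

/-- The Faltings height over `ℚ` (up to an additive constant which depends on the normalisation
only): `12 h_F(E)` is the logarithm of the minimal discriminant plus the archimedean term at a period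
`τ` of the curve. -/
noncomputable def height (q : ℤ × ℤ) (τ : UpperHalfPlane) : ℝ :=
  (Real.log (minDisc (E q) : ℝ) + arch τ) / 12

/-- `f` is an admissible factor (for instance `f = 1`, or the part of the conductor composed of 2
and 3): on the minimal models with full 2-torsion it is a positive integer at most
`2 ^ 8 * 3 ^ 5 = 62208`, and for every `m` there is `k` such that it depends only on the classes
of `a, b` modulo `6 ^ k` when neither `2 ^ m` nor `3 ^ m` divides the discriminant -/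
def Admissible (f : ℤ × ℤ → ℕ) : Prop :=
  (∀ q : ℤ × ℤ, IsMinimal q.1 q.2 → FullTwoTorsion q.1 q.2 → 1 ≤ f q ∧ f q ≤ 62208) ∧
  ∀ m : ℕ, ∃ k : ℕ, ∀ q q' : ℤ × ℤ, IsMinimal q.1 q.2 → FullTwoTorsion q.1 q.2 →
    IsMinimal q'.1 q'.2 → FullTwoTorsion q'.1 q'.2 →
    ¬ (2 : ℤ) ^ m ∣ Disc q.1 q.2 → ¬ (3 : ℤ) ^ m ∣ Disc q.1 q.2 →
    ¬ (2 : ℤ) ^ m ∣ Disc q'.1 q'.2 → ¬ (3 : ℤ) ^ m ∣ Disc q'.1 q'.2 →
    (6 : ℤ) ^ k ∣ q.1 - q'.1 → (6 : ℤ) ^ k ∣ q.2 - q'.2 → f q = f q'

/-- the conductor: `f` times the prime-to-6 part -/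
def Cond (f : ℤ × ℤ → ℕ) (q : ℤ × ℤ) : ℕ := f q * Cond6 q.1 q.2

/-- the minimal models with full 2-torsion and conductor at most `N`, of all heights -/
def Curves (f : ℤ × ℤ → ℕ) (N : ℝ) : Set (ℤ × ℤ) :=
  {q | IsMinimal q.1 q.2 ∧ FullTwoTorsion q.1 q.2 ∧ (Cond f q : ℝ) ≤ N}

/-- the arithmetic part: the minimal discriminant over the square of the conductor -/
noncomputable def ratio (f : ℤ × ℤ → ℕ) (q : ℤ × ℤ) : ℚ := (minDisc (E q) : ℚ) / (Cond f q : ℚ) ^ 2

/-- the share of the curves `q` with period `τ` and property `P q τ` among all the curves of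
conductor at most `N` -/
noncomputable def share (f : ℤ × ℤ → ℕ) (P : ℤ × ℤ → UpperHalfPlane → Prop) (N : ℝ) : ℝ :=
  (({q | q ∈ Curves f N ∧ ∃ τ, IsPeriod q τ ∧ P q τ} : Set (ℤ × ℤ)).ncard : ℝ) /
    ((Curves f N).ncard : ℝ)

/-- the law of the archimedean part: `arch τ` for `τ = i y`, `y ≥ 1`, with
`j(τ) = 256 (1 + s + s²)³ / (s (1 + s))²`, where `s ∈ (0, 1]` has density proportional to
`(s (1 + s)) ^ (-2/3)` -/
noncomputable def archLaw (x : ℝ) : ℝ :=
  (∫ s in {s : ℝ | 0 < s ∧ s ≤ 1 ∧ ∃ τ : UpperHalfPlane, τ.re = 0 ∧ 1 ≤ τ.im ∧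
    jInv τ = ((256 * (1 + s + s ^ 2) ^ 3 / (s * (1 + s)) ^ 2 : ℝ) : ℂ) ∧ arch τ ≤ x},
    (s * (1 + s)) ^ (-(2 / 3) : ℝ)) / ∫ s in Set.Ioc (0 : ℝ) 1, (s * (1 + s)) ^ (-(2 / 3) : ℝ)

/-- the law of `(log v + A) / 12` for independent `v` of law `ν` and `A` of law `archLaw` -/
noncomputable def law (ν : ℚ → ℝ) (x : ℝ) : ℝ := ∑' v : ℚ, ν v * archLaw (12 * x - Real.log v)

/-- **The limit law of the Faltings height.** (1) Every elliptic curve over `ℚ` with full rational
2-torsion has exactly one period `τ = i y` with `y ≥ 1`. (2) For every admissible `f` there is a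
probability distribution `ν` on the positive rational numbers such that, for the curves with full
rational 2-torsion ordered by the conductor `N_E = f N₆`, with no bound on the heights: the share of
the curves with `|Δ_E| / N_E ² = v` and `arch ≤ x` tends to `ν v * archLaw x`, for all `v` and `x` (the
arithmetic and the archimedean part are independent in the limit); and the share of those with
`h_F(E) ≤ (1 / 6) log N_E + x` tends to `law ν x`, for every real `x`. The distribution function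
`law ν` is continuous and monotone, it tends to `0` and `1`, and it is less than `1` everywhere. -/
theorem result :
    (∀ q : ℤ × ℤ, IsMinimal q.1 q.2 → FullTwoTorsion q.1 q.2 → ∃! τ, IsPeriod q τ) ∧
    ∀ f : ℤ × ℤ → ℕ, Admissible f → ∃ ν : ℚ → ℝ, (∀ v, 0 ≤ ν v) ∧ (∀ v, ν v ≠ 0 → 0 < v) ∧
      HasSum ν 1 ∧
      (∀ (v : ℚ) (x : ℝ), Tendsto (share f fun q τ => ratio f q = v ∧ arch τ ≤ x) atTop
        (𝓝 (ν v * archLaw x))) ∧
      (∀ x : ℝ, Tendsto (share f fun q τ => height q τ ≤ Real.log (Cond f q : ℝ) / 6 + x) atTop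
        (𝓝 (law ν x))) ∧
      Continuous (law ν) ∧ Monotone (law ν) ∧ (∀ x, law ν x < 1) ∧
      Tendsto (law ν) atBot (𝓝 0) ∧ Tendsto (law ν) atTop (𝓝 1) :=
  ⟨fun _ h1 h2 => Pool.Agent.R465.FH.per_ex h1 h2, fun _ hf => Pool.Agent.R465.FH.main hf⟩

end Pool.Agent.Results.MP_6babc4_nt.HeightLimitLaw
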