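import Pool.Agent.Results.MP_6babc4_nt.AllFieldsFrey
import Pool.Agent.R559.NP.Rel

/-!
# Frey's inequality for all elliptic curves with invariant near a given point

Let `φ` be any map from the algebraic numbers to a metric space `X`, for example the inclusion in `ℂ` or in `ℂ_p`,
`0 ≤ δ ≤ 3` and `τ > 0`.  For all `ξ ∈ X` outside a set of Hausdorff dimension at most `(2 - δ / (2 (1 + δ))) / τ` and for
ALL number fields `L` all but finitely many `j ∈ L` with `dist (φ j) ξ ≤ κ H_L(j) ^ (-τ)` have the following property: for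
ALL subfields `K` and ALL elliptic curves `E` over `L` of invariant `j` (all twists) the Faltings height of the Weil
restriction `A = Res_{L/K} E` satisfies
`12 [K : ℚ] h_F(A) ≤ (1 + δ) log (multNorm E) + 5 log (addNorm E) + 3 log (relDisc ^ 2) + C [L : ℚ]`
with an absolute constant `C`.
-/

set_option autoImplicit false

namespace Pool.Agent.Results.MP_6babc4_nt.InvariantsNearAPoint

open NumberField
open AllFieldsFrey (FreySharp)

/-- **Theorem.** There is an absolute constant `C` with the following property.  Let `φ` be a map from the algebraic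
numbers to a metric space `X`, `0 ≤ δ ≤ 3` and `τ > 0`.  There is `E ⊆ X` of Hausdorff dimension at most
`(2 - δ / (2 (1 + δ))) / τ` such that for all `ξ ∈ X` outside `E`, all number fields `L` inside the algebraic numbers and
all `κ` all but finitely many `j ∈ L` with `dist (φ j) ξ ≤ κ H_L(j) ^ (-τ)`, `H_L` the height relative to `L`, satisfy
`FreySharp δ C j`: the sharp form of Frey's inequality for the Weil restrictions to all subfields `K` of `L` of all elliptic
curves over `L` of invariant `j`. -/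
theorem result : ∃ C : ℝ, 0 < C ∧ ∀ (X : Type) [MetricSpace X] (φ : AlgebraicClosure ℚ → X) (δ τ : ℝ),
    0 ≤ δ → δ ≤ 3 → 0 < τ →
    ∃ E : Set X, dimH E ≤ ENNReal.ofReal ((2 - δ / (2 * (1 + δ))) / τ) ∧ ∀ ξ : X, ξ ∉ E →
      ∀ (L : IntermediateField ℚ (AlgebraicClosure ℚ)) [NumberField L] (κ : ℝ),
        {j : L | dist (φ j) ξ ≤ κ * Height.mulHeight₁ j ^ (-τ) ∧ ¬ FreySharp δ C j}.Finite := by
  obtain ⟨C, hC, hres⟩ := AllFieldsFrey.result.1
  refine ⟨C, hC, fun X _ φ δ τ hδ hδ' hτ => ?_⟩
  have hs : 0 ≤ 2 - δ / (2 * (1 + δ)) := by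
    have h1 : δ / (2 * (1 + δ)) ≤ 2 := by
      rw [div_le_iff₀ (by linarith)]
      linarith
    linarith
  obtain ⟨E, hE, hE'⟩ := Pool.Agent.R559.NP.near_fields (X := X)
    (fun L _ j => ¬ FreySharp δ C j) (s := 2 - δ / (2 * (1 + δ))) (τ := τ) hs hτ
    (by
      intro L _ ε hε
      obtain ⟨M, hM, h⟩ := hres δ ε hδ hδ' hε
      refine ⟨M, hM, fun B hB => ?_⟩
      obtain ⟨h1, h2, -⟩ := h L B hB
      have hset : {j : L | ¬ FreySharp δ C j ∧
          Height.logHeight₁ j ≤ Module.finrank ℚ L * Real.log B} = AllFieldsFrey.ExcSharp L δ C B := by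
        ext j
        simp only [AllFieldsFrey.ExcSharp, AllFieldsFrey.Inv, Set.mem_ofPred_eq]
        tauto
      rw [hset]
      exact ⟨h1.subset fun j hj => hj.1, h2⟩) φ
  exact ⟨E, hE, fun ξ hξ L _ κ => hE' ξ hξ L κ⟩

end Pool.Agent.Results.MP_6babc4_nt.InvariantsNearAPoint
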