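import Mathlib
import Pool.Agent.R365.CV.Up

/-!
# `[K : ℚ] h_F(A) = (1 / 6) log N_A + O(1)` for almost all Weil restrictions of elliptic curves with
full two-torsion over number fields

Let `L / K` be an extension of number fields. Frey asks for constants `κ`, `c` with
`h_F(A) ≤ κ log N_A + c` for all abelian varieties `A` over `K` of dimension `g`. We consider the
Weil restrictions `A = Res_{L/K} E` (so `g = [L : K]`, and `A = E` for `L = K`) of ALL elliptic curves
`E` over `L` with full `L`-rational two-torsion, up to isomorphism over `L`, including all quadratic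
twists, ordered by their conductor, with no restriction on their heights.

The height is the (unstable) Faltings height over `K`: the Néron model of `A` is the Weil restriction
of the one of `E`, so that `[K : ℚ] h_F(A) = [L : ℚ] h_F(E / L) + (1 / 2) log (|D_L| / |D_K| ^ g)`, and
`h_F(E / L)` is given by Silverman's formula in terms of the minimal discriminant and the periods.
The conductor is `N_A = N(f_E) (|D_L| / |D_K| ^ g) ^ 2` (Milne). At the primes not above two the
exponent of the conductor of `E` is `1` for multiplicative and `2` for additive reduction; the part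
above two is bounded in terms of `L`. So `N_A` is `cond E` up to a factor bounded above and below in
terms of `L`.

Over number fields it was known (`ConductorOrderedSlope`) that there are `X ^ (2 / 3 + o(1))` such
curves with `cond E ≤ X`, and that for slopes `κ > 1 / 6` the inequality `h ≥ κ log N + c` holds for
a proportion `X ^ (-ν)` only. Here the number is determined up to constants, `c₁ X ^ (2 / 3)` to
`C₁ X ^ (2 / 3)`, and `[K : ℚ] h_F(A) - (1 / 6) log cond E`, which is bounded below by
`- C [L : ℚ]` with an absolute constant `C`, is bounded in probability, with the tail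
`exp (- 2 c)` up to an arbitrarily small change of the exponent. Over `ℚ` this is `SlopeBoundedError`.

Proof: a sharp count of the points of the line `x + y + z = 0` with given radical a prescribed divisor
of which is prescribed (gap principle in cells, with a convergent Euler product, the prescribed
primes being additional conditions of the cells); the classes with given Legendre parameter and
given additive primes are bounded in number, as the parities of the valuations of `a` in
`y ^ 2 = x (x - a) (x - b)` are determined outside two; the additive primes are summed by a second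
convergent product, those dividing the parameter with the prescribed divisors. For the lower bound
the parameters `(p ^ m / l ^ n) (y - s) / (y - t)` are used.
-/

set_option autoImplicit false

namespace Pool.Agent.Results.MP_6babc4_nt.SharpSlopeOverNumberFields

open NumberField IsDedekindDomain

/-- the modular invariant `j(τ) = E₄(τ) ^ 3 / Δ(τ) = 1 / q + 744 + ⋯` -/
noncomputable def jInv (τ : UpperHalfPlane) : ℂ :=
  ModularForm.E₄ τ ^ 3 / ModularForm.discriminant τ

/-- the archimedean term `- log (|Δ(τ)| (Im τ) ^ 6)` of the Faltings height -/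
noncomputable def arch (τ : UpperHalfPlane) : ℝ :=
  -Real.log (‖ModularForm.discriminant τ‖ * τ.im ^ 6)

/-- the points `τ w` have modular invariant `j` -/
def IsPeriod {K : Type} [Field K] [NumberField K] (j : K)
    (τ : InfinitePlace K → UpperHalfPlane) : Prop := ∀ w, jInv (τ w) = w.embedding j

/-- the equation is integral at `v` -/
def IntAt {K : Type} [Field K] [NumberField K] (v : HeightOneSpectrum (𝓞 K))
    (E : WeierstrassCurve K) : Prop :=
  v.valuation K E.a₁ ≤ 1 ∧ v.valuation K E.a₂ ≤ 1 ∧ v.valuation K E.a₃ ≤ 1 ∧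
    v.valuation K E.a₄ ≤ 1 ∧ v.valuation K E.a₆ ≤ 1

/-- the exponent of `v` in the minimal discriminant of the curve: the least valuation at `v` of the
discriminant of a Weierstrass equation of the curve over `K` which is integral at `v` -/
noncomputable def discExp {K : Type} [Field K] [NumberField K] (v : HeightOneSpectrum (𝓞 K))
    (E : WeierstrassCurve K) : ℕ :=
  sInf {m : ℕ | ∃ C : WeierstrassCurve.VariableChange K, IntAt v (C • E) ∧
    v.valuation K (C • E).Δ = WithZero.exp (-(m : ℤ))}

/-- the Faltings height over `K` of the Weil restriction `A = Res_{L/K} E` of an elliptic curve `E`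
over `L` (up to an additive constant which depends on the normalisation of the metric only):
`12 [K : ℚ] h_F(A)` is the sum of the logarithm of the norm of the minimal discriminant of `E`, of
the archimedean terms, and of `6 log (|D_L| / |D_K| ^ [L : K])` -/
noncomputable def height (K : Type) [Field K] [NumberField K] {L : Type} [Field L] [NumberField L]
    [Algebra K L] (E : WeierstrassCurve L) (τ : InfinitePlace L → UpperHalfPlane) : ℝ :=
  (∑ᶠ v : HeightOneSpectrum (𝓞 L), (discExp v E : ℝ) * Real.log (Ideal.absNorm v.asIdeal : ℝ) +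
    ∑ w : InfinitePlace L, (w.mult : ℝ) * arch (τ w) +
    6 * (Real.log |(discr L : ℝ)| - Module.finrank K L * Real.log |(discr K : ℝ)|)) /
    (12 * Module.finrank ℚ K)

/-- full rational two-torsion: the polynomial of the first coordinates of the points of order two
has three roots -/
def FullTwo {K : Type} [Field K] (E : WeierstrassCurve K) : Prop :=
  ∃ e : Fin 3 → K, Function.Injective e ∧
    ∀ i, 4 * e i ^ 3 + E.b₂ * e i ^ 2 + 2 * E.b₄ * e i + E.b₆ = 0

/-- good reduction at `v`: some Weierstrass equation over `K` of the curve is integral at `v` and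
has a discriminant which is a unit at `v` -/
def GoodAt {K : Type} [Field K] [NumberField K] (v : HeightOneSpectrum (𝓞 K))
    (E : WeierstrassCurve K) : Prop :=
  ∃ C : WeierstrassCurve.VariableChange K,
    v.valuation K (C • E).a₁ ≤ 1 ∧ v.valuation K (C • E).a₂ ≤ 1 ∧ v.valuation K (C • E).a₃ ≤ 1 ∧
    v.valuation K (C • E).a₄ ≤ 1 ∧ v.valuation K (C • E).a₆ ≤ 1 ∧ v.valuation K (C • E).Δ = 1

/-- semistable (good or multiplicative) reduction at `v`: some Weierstrass equation over `K` of the
curve is integral at `v` and its discriminant or its invariant `c₄` is a unit at `v` -/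
def SemistableAt {K : Type} [Field K] [NumberField K] (v : HeightOneSpectrum (𝓞 K))
    (E : WeierstrassCurve K) : Prop :=
  ∃ C : WeierstrassCurve.VariableChange K,
    v.valuation K (C • E).a₁ ≤ 1 ∧ v.valuation K (C • E).a₂ ≤ 1 ∧ v.valuation K (C • E).a₃ ≤ 1 ∧
    v.valuation K (C • E).a₄ ≤ 1 ∧ v.valuation K (C • E).a₆ ≤ 1 ∧
    (v.valuation K (C • E).Δ = 1 ∨ v.valuation K (C • E).c₄ = 1)

/-- the part prime to two of the norm of the conductor: the product over the primes `v` not above
two of `N(v)` for multiplicative and `N(v) ^ 2` for additive reduction -/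
noncomputable def cond {K : Type} [Field K] [NumberField K] (E : WeierstrassCurve K) : ℝ :=
  (∏ᶠ v ∈ {v : HeightOneSpectrum (𝓞 K) | ¬ GoodAt v E ∧ v.valuation K 2 = 1},
    (Ideal.absNorm v.asIdeal : ℝ)) *
  ∏ᶠ v ∈ {v : HeightOneSpectrum (𝓞 K) | ¬ SemistableAt v E ∧ v.valuation K 2 = 1},
    (Ideal.absNorm v.asIdeal : ℝ)

/-- the Weierstrass curves over `K` up to isomorphism over `K` (changes of variables) -/
abbrev IsoClass (K : Type) [Field K] : Type :=
  Quotient (MulAction.orbitRel (WeierstrassCurve.VariableChange K) (WeierstrassCurve K))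

/-- the isomorphism classes of the elliptic curves over `L` with full rational two-torsion and
conductor (outside two) at most `X` -/
def Curves (L : Type) [Field L] [NumberField L] (X : ℝ) : Set (IsoClass L) :=
  {q | ∃ E : WeierstrassCurve L, Quotient.mk'' E = q ∧ E.Δ ≠ 0 ∧ FullTwo E ∧ cond E ≤ X}

/-- those with `(1 / 6) log (cond E) + c ≤ [K : ℚ] h_F(Res_{L/K} E)` -/
def High (K L : Type) [Field K] [NumberField K] [Field L] [NumberField L] [Algebra K L]
    (c X : ℝ) : Set (IsoClass L) :=
  {q | ∃ (E : WeierstrassCurve L) (τ : InfinitePlace L → UpperHalfPlane), Quotient.mk'' E = q ∧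
    E.Δ ≠ 0 ∧ FullTwo E ∧ cond E ≤ X ∧ IsPeriod (E.c₄ ^ 3 / E.Δ) τ ∧
    Real.log (cond E) / 6 + c ≤ Module.finrank ℚ K * height K E τ}

/-- those with `c < |[K : ℚ] h_F(Res_{L/K} E) - (1 / 6) log (cond E)|` -/
def Far (K L : Type) [Field K] [NumberField K] [Field L] [NumberField L] [Algebra K L]
    (c X : ℝ) : Set (IsoClass L) :=
  {q | ∃ (E : WeierstrassCurve L) (τ : InfinitePlace L → UpperHalfPlane), Quotient.mk'' E = q ∧
    E.Δ ≠ 0 ∧ FullTwo E ∧ cond E ≤ X ∧ IsPeriod (E.c₄ ^ 3 / E.Δ) τ ∧
    c < |Module.finrank ℚ K * height K E τ - Real.log (cond E) / 6|}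

open Pool.Agent.R365.CV

theorem Far_sub {C : ℝ} (hge : ∀ (K L : Type) [Field K] [NumberField K] [Field L]
    [NumberField L] [Algebra K L] (E : WeierstrassCurve L)
    (τ : InfinitePlace L → UpperHalfPlane), E.Δ ≠ 0 → FullTwo E →
    Real.log (cond E) / 6 - C * Module.finrank ℚ L ≤ Module.finrank ℚ K * height K E τ)
    (K L : Type) [Field K] [NumberField K] [Field L] [NumberField L] [Algebra K L]
    {c X : ℝ} (hc : C * Module.finrank ℚ L ≤ c) : Far K L c X ⊆ High K L c X := by
  rintro q ⟨E, τ, h1, h2, h3, h4, h5, h6⟩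
  refine ⟨E, τ, h1, h2, h3, h4, h5, ?_⟩
  have h7 := hge K L E τ h2 h3
  rcases lt_abs.1 h6 with h | h
  · linarith
  · linarith

/-- **The Faltings height of elliptic curves with full two-torsion and of their Weil restrictions,
ordered by the conductor.** (1) There is an absolute constant `C` with
`[K : ℚ] h_F(A) ≥ (1 / 6) log (cond E) - C [L : ℚ]` for all `A = Res_{L/K} E`; every `E` has periods.
(2) For every `L` the number of the curves with `cond E ≤ X` is between `c₁ X ^ (2 / 3)` and
`C₁ X ^ (2 / 3)` for large `X`. (3) For `0 < t < 2` at most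
`C (exp (-t c) + X ^ (-ν)) X ^ (2 / 3)` curves with `cond E ≤ X` have
`[K : ℚ] h_F(A) ≥ (1 / 6) log (cond E) + c`, for all `c ≥ 0`. (4) At least
`c₀ exp (-2 c) X ^ (2 / 3)` have this property, for all `c ≥ 0` and `X ≥ C exp (3 c)`. (5) For every
`ε > 0` there is `c` such that at most the proportion `ε` has
`|[K : ℚ] h_F(A) - (1 / 6) log (cond E)| > c`, for all large `X`. All constants in (3), (4) and (5)
depend on `L` only and not on the subfield `K`. -/
theorem result :
    (∃ C : ℝ, ∀ (K L : Type) [Field K] [NumberField K] [Field L] [NumberField L] [Algebra K L]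
      (E : WeierstrassCurve L), E.Δ ≠ 0 → FullTwo E →
      (∃ τ : InfinitePlace L → UpperHalfPlane, IsPeriod (E.c₄ ^ 3 / E.Δ) τ) ∧
      ∀ τ : InfinitePlace L → UpperHalfPlane, IsPeriod (E.c₄ ^ 3 / E.Δ) τ →
        Real.log (cond E) / 6 - C * Module.finrank ℚ L ≤ Module.finrank ℚ K * height K E τ) ∧
    ∀ (L : Type) [Field L] [NumberField L],
      (∃ c₁ C₁ X₀ : ℝ, 0 < c₁ ∧ ∀ X : ℝ, X₀ ≤ X → (Curves L X).Finite ∧
        c₁ * X ^ (2 / 3 : ℝ) ≤ ((Curves L X).ncard : ℝ) ∧
        ((Curves L X).ncard : ℝ) ≤ C₁ * X ^ (2 / 3 : ℝ)) ∧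
      (∀ t : ℝ, 0 < t → t < 2 → ∃ ν C : ℝ, 0 < ν ∧
        ∀ (K : Type) [Field K] [NumberField K] [Algebra K L] (X c : ℝ), 1 ≤ X → 0 ≤ c →
          ((High K L c X).ncard : ℝ) ≤
            C * ((Real.exp (-(t * c)) + X ^ (-ν)) * X ^ (2 / 3 : ℝ))) ∧
      (∃ c₀ C : ℝ, 0 < c₀ ∧
        ∀ (K : Type) [Field K] [NumberField K] [Algebra K L] (X c : ℝ), 0 ≤ c →
          C * Real.exp (3 * c) ≤ X →
          c₀ * (Real.exp (-(2 * c)) * X ^ (2 / 3 : ℝ)) ≤ ((High K L c X).ncard : ℝ)) ∧
      ∀ ε : ℝ, 0 < ε → ∃ c X₀ : ℝ,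
        ∀ (K : Type) [Field K] [NumberField K] [Algebra K L] (X : ℝ), X₀ ≤ X →
          ((Far K L c X).ncard : ℝ) ≤ ε * ((Curves L X).ncard : ℝ) := by
  obtain ⟨C, hC, hge⟩ := height_ge
  refine ⟨⟨C, fun K L _ _ _ _ _ E h1 h2 =>
    ⟨exists_period _, fun τ _ => hge K L E τ h1 h2⟩⟩, fun L _ _ => ?_⟩
  obtain ⟨c₁, X1, hc₁, hX1, hlow⟩ := cl2_lower_sharp L
  obtain ⟨C₁, hC₁, hup⟩ := cl2_sharp L
  obtain ⟨c₀, C2, hc₀, hC2, hhl⟩ := high_lower L
  refine ⟨⟨c₁, C₁, X1, hc₁, fun X hX => ⟨(hup X (hX1.trans hX)).1, hlow X hX,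
    (hup X (hX1.trans hX)).2⟩⟩, fun t h1 h2 => ?_,
    ⟨c₀, C2, hc₀, fun K _ _ _ X c hc hX => hhl K X c hc hX⟩, fun ε hε => ?_⟩
  · obtain ⟨ν, C', hν, hC', h⟩ := high_upper L t h1 h2
    exact ⟨ν, C', hν, fun K _ _ _ X c hX _ => h K X c hX⟩
  · obtain ⟨ν, C', hν, hC', h⟩ := high_upper L 1 one_pos (by norm_num)
    obtain ⟨c, hc⟩ : ∃ c : ℝ, c = max (C * Module.finrank ℚ L)
      (Real.log (2 * C' / (ε * c₁))) := ⟨_, rfl⟩
    have hεc : 0 < ε * c₁ := by positivity
    have hexp : Real.exp (-(1 * c)) ≤ ε * c₁ / (2 * C') := by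
      have e1 : Real.log (2 * C' / (ε * c₁)) ≤ c := by rw [hc]; exact le_max_right _ _
      have e2 : 2 * C' / (ε * c₁) ≤ Real.exp c := by
        rw [← Real.log_le_iff_le_exp (by positivity)]
        exact e1
      rw [one_mul, Real.exp_neg]
      refine inv_le_of_inv_le₀ (by positivity) ?_
      rw [inv_div]
      exact e2
    obtain ⟨X2, hX2, hb⟩ := Pool.Agent.Y729.AH.big (2 * C' / (ε * c₁)) ν hν
    refine ⟨c, max X1 X2, fun K _ _ _ X hX => ?_⟩
    have hXX1 : X1 ≤ X := (le_max_left _ _).trans hX
    have hXX2 : X2 ≤ X := (le_max_right _ _).trans hX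
    have hX1' : 1 ≤ X := hX1.trans hXX1
    have hX0 : 0 < X := by linarith
    have hfin : (High K L c X).Finite := by
      refine (hup X hX1').1.subset ?_
      rintro q ⟨E, τ, g1, g2, g3, g4, g5, g6⟩
      exact ⟨E, g1, g2, g3, g4⟩
    have k1 : ((Far K L c X).ncard : ℝ) ≤ ((High K L c X).ncard : ℝ) := by
      refine Nat.cast_le.2 (Set.ncard_le_ncard (Far_sub (C := C) hge K L ?_) hfin)
      rw [hc]
      exact le_max_left _ _
    have k2 : ((High K L c X).ncard : ℝ) ≤
        C' * ((Real.exp (-(1 * c)) + X ^ (-ν)) * X ^ (2 / 3 : ℝ)) := h K X c hX1'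
    have k3 : X ^ (-ν) ≤ ε * c₁ / (2 * C') := by
      have e1 := hb X hXX2
      rw [Real.rpow_neg hX0.le]
      refine inv_le_of_inv_le₀ (by positivity) ?_
      rw [inv_div]
      exact e1
    have k4 : C' * ((Real.exp (-(1 * c)) + X ^ (-ν)) * X ^ (2 / 3 : ℝ)) ≤
        C' * ((ε * c₁ / (2 * C') + ε * c₁ / (2 * C')) * X ^ (2 / 3 : ℝ)) :=
      mul_le_mul_of_nonneg_left (mul_le_mul_of_nonneg_right (add_le_add hexp k3)
        (by positivity)) hC'.le
    have k5 : C' * ((ε * c₁ / (2 * C') + ε * c₁ / (2 * C')) * X ^ (2 / 3 : ℝ)) =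
        ε * (c₁ * X ^ (2 / 3 : ℝ)) := by
      field_simp
      ring
    refine k1.trans (k2.trans (k4.trans (le_of_eq_of_le k5 ?_)))
    exact mul_le_mul_of_nonneg_left (hlow X hXX1) hε.le

end Pool.Agent.Results.MP_6babc4_nt.SharpSlopeOverNumberFields
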